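import Mathlib
import Pool.Agent.Helper963.RosaryUpper

set_option autoImplicit false

namespace Pool.Agent.Results.MP_71d90a_co.GuptaBound

/-- A cyclic word `l` over the `n` symbols of `Fin n` is universal if every permutation of the
symbols, written as a word, is a subsequence of at least one rotation of `l`. -/
def Universal (n : ℕ) (l : List (Fin n)) : Prop :=
  ∀ σ : Equiv.Perm (Fin n), ∃ j : ℕ, List.Sublist (List.ofFn (⇑σ)) (l.rotate j)

/-- The set of positive lengths of universal cyclic words over `n` symbols. -/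
def universalLengths (n : ℕ) : Set ℕ :=
  {k : ℕ | 0 < k ∧ ∃ l : List (Fin n), l.length = k ∧ Universal n l}

/-- Gupta's conjecture: the least length `m` of a universal cycle over `n ≥ 2` symbols exists
and is at most `⌊n ^ 2 / 2⌋`. -/
theorem result : ∀ n : ℕ, 2 ≤ n → ∃ m : ℕ, IsLeast (universalLengths n) m ∧
    m ≤ n ^ 2 / 2 := by
  intro n hn
  obtain ⟨l, hl, hu⟩ := Pool.Agent.Helper963.RosaryUpper.gupta n hn
  have hlpos : 0 < l.length := by
    rw [List.length_pos_iff]
    rintro rfl
    obtain ⟨k, hk⟩ := hu 1
    have := hk.length_le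
    simp at this
    omega
  have hmem : l.length ∈ universalLengths n := ⟨hlpos, l, rfl, hu⟩
  have hne : (universalLengths n).Nonempty := ⟨_, hmem⟩
  exact ⟨sInf (universalLengths n), ⟨Nat.sInf_mem hne, fun k hk => Nat.sInf_le hk⟩,
    le_trans (Nat.sInf_le hmem) hl⟩

end Pool.Agent.Results.MP_71d90a_co.GuptaBound
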